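import Pool.Agent.R635.AltThreeFinal

set_option autoImplicit false

/-!
Over every field of characteristic three there is a solvable variety of alternative algebras
without a finite basis of identities.

The identities are the alternative laws, `((x₀x₁)(x₂x₃))x₄ = 0`, `x₄((x₀x₁)(x₂x₃)) = 0` and, for
`m = 1, 5, 9, …`, `[x₀,x₁]·(x₄₊ₘ(…(x₆(x₅[[x₂,x₃],x₄]))…)) = 0`.
-/

namespace Pool.Agent.Results.MP_e7684b_al.NotFinitelyBased

universe u

/-- The algebra `A` satisfies all identities in `T`: every element of `T` (a nonassociative
polynomial in the variables `x₀, x₁, …`) vanishes under every substitution of elements of `A`. -/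
def Satisfies (K : Type u) [Field K] (A : Type u) [NonUnitalNonAssocRing A] [Module K A]
    [IsScalarTower K A A] [SMulCommClass K A A]
    (T : Set (FreeNonUnitalNonAssocAlgebra K ℕ)) : Prop :=
  ∀ f ∈ T, ∀ a : ℕ → A, FreeNonUnitalNonAssocAlgebra.lift K a f = 0

/-- The derived series of an algebra: `A` itself, then the span of all products of two elements of
the previous term. -/
def derivedPower (K : Type u) [Field K] (A : Type u) [NonUnitalNonAssocRing A] [Module K A] :
    ℕ → Submodule K A
  | 0 => ⊤
  | k + 1 => Submodule.span K
      {z : A | ∃ x ∈ derivedPower K A k, ∃ y ∈ derivedPower K A k, z = x * y}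

theorem derivedPower_eq (K : Type u) [Field K] (A : Type u) [NonUnitalNonAssocRing A] [Module K A]
    (k : ℕ) : derivedPower K A k = Pool.Agent.R635.AltThree.derivedPower K A k := by
  induction k with
  | zero => rfl
  | succ k ih => unfold derivedPower Pool.Agent.R635.AltThree.derivedPower; rw [ih]

/-- There is a field of characteristic three, and over every such field `K` there is a set `T` of
identities such that every algebra satisfying `T` is alternative and solvable (the fourth term of
its derived series, counted from `A`, is zero), while no finite set `S` of identities defines the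
same class of algebras. -/
theorem result :
    (∃ (K : Type) (_ : Field K), CharP K 3) ∧
    ∀ (K : Type u) [Field K] [CharP K 3],
      ∃ T : Set (FreeNonUnitalNonAssocAlgebra K ℕ),
        (∀ (A : Type u) [NonUnitalNonAssocRing A] [Module K A] [IsScalarTower K A A]
          [SMulCommClass K A A], Satisfies K A T →
            (∀ x y : A, (x * x) * y = x * (x * y)) ∧ (∀ x y : A, (y * x) * x = y * (x * x)) ∧
            derivedPower K A 3 = ⊥) ∧
        ¬ ∃ S : Set (FreeNonUnitalNonAssocAlgebra K ℕ), S.Finite ∧
          ∀ (A : Type u) [NonUnitalNonAssocRing A] [Module K A] [IsScalarTower K A A]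
            [SMulCommClass K A A], Satisfies K A T ↔ Satisfies K A S := by
  refine ⟨⟨ZMod 3, inferInstance, inferInstance⟩, ?_⟩
  intro K _ _
  have h3 : (3 : K) = 0 := by
    have := CharP.cast_eq_zero K 3
    exact_mod_cast this
  refine ⟨Pool.Agent.R635.AltThree.base K ∪ Pool.Agent.R635.AltThree.laws K Set.univ, ?_, ?_⟩
  · intro A _ _ _ _ h
    have hb : Pool.Agent.R635.AltThree.Satisfies K A (Pool.Agent.R635.AltThree.base K) :=
      fun f hf => h f (Or.inl hf)
    refine ⟨Pool.Agent.R635.AltThree.left_alt_of hb, Pool.Agent.R635.AltThree.right_alt_of hb, ?_⟩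
    rw [derivedPower_eq]
    exact Pool.Agent.R635.AltThree.solvable_of hb
  · exact Pool.Agent.R635.AltThree.not_finite K h3 Set.univ Set.infinite_univ

end Pool.Agent.Results.MP_e7684b_al.NotFinitelyBased
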